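import Pool.Agent.E8helper80.AX.Defs

/-!
# `M + 2` points, the apex: definitions

The block `ABG M h` consists of the exponents `(t, j)` with `0 ≤ j` and
`(K - M) (h - j) ≤ t ≤ K (h - j)`, `K = (M + √(M ^ 2 + 2 M)) / 2`.
-/

namespace Pool.Agent.E8helper80.AX

/-- the slope -/
noncomputable def KG (M : ℕ) : ℝ := (M + √((M * M + 2 * M : ℕ) : ℝ)) / 2

/-- the block with its apex `(0, h)` -/
def ABG (M h : ℕ) : Set (ℤ × ℤ) :=
  {p | 0 ≤ p.2 ∧ (KG M - M) * ((h : ℝ) - p.2) ≤ p.1 ∧ (p.1 : ℝ) ≤ KG M * ((h : ℝ) - p.2)}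

end Pool.Agent.E8helper80.AX
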