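import Pool.Agent.E8helper80.AX.Defs

/-! The polynomials attached to a Laurent polynomial: coefficients. -/

namespace Pool.Agent.E8helper80.AX

open Finset Pool.Agent.TH176.Nag Polynomial

variable {F : Type*} [Field F]

theorem ph_coeff (f : (ℤ × ℤ) →₀ F) (c : ℤ) (k : ℕ) :
    (ph f c).coeff k = wc f (c + k) k := by
  unfold ph wc Finsupp.sum
  rw [finsetSum_coeff]
  apply sum_congr rfl
  rintro ⟨t, j⟩ _
  simp only
  by_cases h : t < c
  · rw [if_pos h, if_neg (by omega), coeff_zero]
  · rw [if_neg h, coeff_C_mul, coeff_X_pow]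
    by_cases h2 : t = c + k
    · subst h2
      rw [if_pos (by omega), if_pos rfl]
      have : (c + (k : ℤ) - c).toNat = k := by omega
      rw [this]
      simp
    · rw [if_neg (by omega), if_neg h2]
      simp

theorem ph_taylor (f : (ℤ × ℤ) →₀ F) (c : ℤ) (b : ℕ) :
    (taylor 1 (ph f c)).coeff b = tc f c b := by
  unfold ph tc Finsupp.sum
  rw [map_sum, finsetSum_coeff]
  apply sum_congr rfl
  rintro ⟨t, j⟩ _
  simp only
  by_cases h : t < c
  · rw [if_pos h, if_pos h]; simp
  · rw [if_neg h, if_neg h, taylor_apply]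
    simp only [mul_comp, C_comp, X_pow_comp, map_one]
    rw [coeff_C_mul, coeff_X_add_one_pow]
    push_cast
    ring

theorem colp_taylor (f : (ℤ × ℤ) →₀ F) (t : ℤ) (k : ℕ) :
    (taylor 1 (colp f t)).coeff k = wc f t k := by
  unfold colp wc Finsupp.sum
  rw [map_sum, finsetSum_coeff]
  apply sum_congr rfl
  rintro ⟨t', j⟩ _
  simp only
  by_cases h : t' = t
  · rw [if_pos h, if_pos h, taylor_apply]
    simp only [mul_comp, C_comp, X_pow_comp, map_one]
    rw [coeff_C_mul, coeff_X_add_one_pow]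
  · rw [if_neg h, if_neg h]; simp

theorem colp_coeff (f : (ℤ × ℤ) →₀ F) (hf : ∀ p ∈ f.support, 0 ≤ p.2) (t : ℤ) (j : ℕ) :
    (colp f t).coeff j = f (t, (j : ℤ)) := by
  classical
  unfold colp Finsupp.sum
  rw [finsetSum_coeff]
  have h1 : ∀ p ∈ f.support, (if p.1 = t then C (f p) * X ^ p.2.toNat else 0 : Polynomial F).coeff j =
      if p = (t, (j : ℤ)) then f p else 0 := by
    rintro ⟨t', j'⟩ hp
    have hp2 := hf _ hp
    simp only at hp2
    simp only [Prod.mk.injEq]
    by_cases h : t' = t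
    · rw [if_pos h, coeff_C_mul, coeff_X_pow]
      by_cases h2 : j' = j
      · rw [if_pos (by omega), if_pos ⟨h, h2⟩, mul_one]
      · rw [if_neg (by omega), if_neg (fun hh => h2 hh.2), mul_zero]
    · rw [if_neg h, if_neg (fun hh => h hh.1), coeff_zero]
  rw [sum_congr rfl h1, sum_ite_eq']
  split_ifs with h
  · rfl
  · exact (Finsupp.notMem_support_iff.1 h).symm

end Pool.Agent.E8helper80.AX
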