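import Pool.Agent.E8helper80.AX.B1
import Pool.Agent.E8helper98.AX.A1
import Pool.Agent.E8helper93.AX_A2

/-! Emptiness from the limit. -/

namespace Pool.Agent.E8helper80.AX

open Finset Pool.Agent.TH176.Nag Polynomial Pool.Agent.E8helper98.AX

/-- the coefficients of the leading part -/
theorem tc_lead (f : (ℤ × ℤ) →₀ LaurentSeries ℚ) (c : ℤ) (b : ℕ) (N : ℤ) :
    tc (f.mapRange (fun u => u.coeff N) rfl) c b = (tc f c b).coeff N := by
  unfold tc
  rw [Finsupp.sum_mapRange_index (by simp)]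
  unfold Finsupp.sum
  rw [HahnSeries.coeff_sum]
  apply sum_congr rfl
  intro p _
  beta_reduce
  split_ifs with h
  · simp
  · have e : (((p.2.toNat.choose (p.1 - c).toNat * (p.1 - c).toNat.choose b : ℕ)) : LaurentSeries ℚ) =
        cst (((p.2.toNat.choose (p.1 - c).toNat * (p.1 - c).toNat.choose b : ℕ)) : ℚ) := by
      simp [cst]
    rw [e, coeff_mul_cst]
    ring

theorem tc_eq_zero {F : Type*} [Field F] {f : (ℤ × ℤ) →₀ F} {c : ℤ} {b : ℕ}
    (h : ∀ p ∈ f.support, ∀ k : ℕ, b ≤ k → (k : ℤ) ≤ p.2 → p.1 - k ≠ c) (h2 : ∀ p ∈ f.support, 0 ≤ p.2) :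
    tc f c b = 0 := by
  unfold tc
  apply sum_eq_zero
  intro p hp
  beta_reduce
  split_ifs with h1
  · rfl
  · have h3 := h p hp (p.1 - c).toNat
    have h4 := h2 p hp
    rcases lt_or_ge (p.1 - c).toNat b with h5 | h5
    · rw [Nat.choose_eq_zero_of_lt h5]; simp
    · rcases lt_or_ge p.2.toNat (p.1 - c).toNat with h6 | h6
      · rw [Nat.choose_eq_zero_of_lt h6]; simp
      · exfalso
        exact h3 h5 (by omega) (by omega)

/-- all points move to the point at infinity of the curve `x (y - 1) = 1` -/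
theorem Emp_of_limit {n m : ℕ} {S : Set (ℤ × ℤ)} (hS : ∀ p ∈ S, 0 ≤ p.1 ∧ 0 ≤ p.2) (Y : ℕ → ℤ)
    (hY : ∀ p ∈ S, ∀ b k : ℕ, b ≤ k → (k : ℤ) ≤ p.2 → p.1 - k ≤ Y b)
    (hlim : ∀ f : (ℤ × ℤ) →₀ ℚ, (↑f.support : Set (ℤ × ℤ)) ⊆ S →
      (∀ b < m, ∀ c : ℤ, Y b < c + n * ((m : ℤ) - b) → tc f c b = 0) → f = 0) :
    Emp (fun _ : Fin n => m) S := by
  classical
  have ha : ∀ l : Fin n, ((l : ℕ) : ℚ) + 1 ≠ 0 := fun l => by positivity
  have htv : tv ℚ ≠ 0 := by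
    intro h
    have := congrArg (fun u : LaurentSeries ℚ => u.coeff 1) h
    simp [tv] at this
  have hcst : ∀ a : ℚ, a ≠ 0 → (cst a : LaurentSeries ℚ) ≠ 0 := by
    intro a ha h
    have h2 : (HahnSeries.C : ℚ →+* LaurentSeries ℚ) a = (HahnSeries.C : ℚ →+* LaurentSeries ℚ) 0 := by
      rw [map_zero]; exact h
    exact ha (HahnSeries.C_injective h2)
  have hs : ∀ l : Fin n, tv ℚ * cst (((l : ℕ) : ℚ) + 1) ≠ 0 := fun l =>
    mul_ne_zero htv (hcst _ (ha l))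
  have hs1 : ∀ l : Fin n, 1 + tv ℚ * cst (((l : ℕ) : ℚ) + 1) ≠ 0 := by
    intro l h
    have h1 := congrArg (fun u : LaurentSeries ℚ => u.coeff 0) h
    simp only [HahnSeries.coeff_add, coeff_mul_cst, HahnSeries.coeff_zero] at h1
    have h2 : (tv ℚ).coeff 0 = 0 := by simp [tv]
    rw [h2] at h1
    simp at h1
  refine ⟨LaurentSeries ℚ, inferInstance, inferInstance,
    fun l => (tv ℚ * cst (((l : ℕ) : ℚ) + 1))⁻¹, fun l => 1 + tv ℚ * cst (((l : ℕ) : ℚ) + 1),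
    fun l => inv_ne_zero (hs l), hs1, ?_⟩
  intro f hfS hfL
  by_contra hne
  obtain ⟨N, hN1, hN2, -⟩ := exists_lead hne
  apply hN1
  -- bound of the support
  obtain ⟨T, hT⟩ : ∃ T : ℕ, ∀ p ∈ f.support, p.1 ≤ T := by
    refine ⟨∑ p ∈ f.support, p.1.natAbs, fun p hp => ?_⟩
    have : p.1.natAbs ≤ ∑ p ∈ f.support, p.1.natAbs :=
      single_le_sum (f := fun p : ℤ × ℤ => p.1.natAbs) (fun _ _ => Nat.zero_le _) hp
    omega
  have hf : ∀ p ∈ f.support, p.1 ≤ T ∧ 0 ≤ p.2 := fun p hp => ⟨hT p hp, (hS p (hfS hp)).2⟩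
  apply hlim
  · intro p hp
    exact hfS (Finsupp.support_mapRange hp)
  intro b hb c hc
  rw [tc_lead]
  rcases lt_or_ge (T : ℤ) c with hTc | hTc
  · rw [tc_eq_zero (fun p hp k hk1 hk2 => by have := hT p hp; omega) (fun p hp => (hf p hp).2)]
    simp
  obtain ⟨e, he⟩ := Int.eq_ofNat_of_zero_le (show 0 ≤ (T : ℤ) - c by omega)
  rw [← hp_coeff (e := e) hf (by omega)]
  refine lead_dvd (n := n) (r := m - b) (u := ((T : ℤ) - Y b).toNat) (fun l => ((l : ℕ) : ℚ) + 1) ?_ ha ?_ ?_ ?_ ?_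
  · intro i j hij
    simp only [add_left_inj, Nat.cast_inj] at hij
    exact Fin.ext hij
  · intro e' k hk
    rw [hp_coeff (e := e') (c := T - e') hf (by omega), ← tc_lead]
    have h0 : f.mapRange (fun u => u.coeff k) rfl = 0 := by
      ext p
      simpa using hN2 p k hk
    rw [h0]
    simp [tc]
  · rw [X_pow_dvd_iff]
    intro e' he'
    rw [hp_coeff (e := e') (c := T - e') hf (by omega)]
    refine tc_eq_zero (fun p hp k hk1 hk2 => ?_) (fun p hp => (hf p hp).2)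
    have := hY p (hfS hp) b k hk1 hk2
    omega
  · intro l
    exact hp_dvd hf (hs l) (hs1 l) (hfL l) hb
  · have h1 : ((m - b : ℕ) : ℤ) = (m : ℤ) - b := by omega
    have h2 : (Y b : ℤ) < c + n * ((m - b : ℕ) : ℤ) := by rw [h1]; exact hc
    have h3 : ((n * (m - b) : ℕ) : ℤ) = n * ((m - b : ℕ) : ℤ) := by push_cast; ring
    omega

end Pool.Agent.E8helper80.AX
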