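import Pool.Agent.TH176.Nag.Flat

/-!
# Eleven points, the apex: definitions

The block `AB h` consists of the exponents `(t, j)` with `0 ≤ j` and
`(K - 9) (h - j) ≤ t ≤ K (h - j)`, `K = (9 + 3 √11) / 2`; `x ^ t * y ^ j` is the monomial.  With
`y = 1 + z / x`, `z = 1 + v` the monomial `x ^ t * y ^ j` is the sum of the
`C(j, k) C(k, b) x ^ (t - k) v ^ b`.
-/

namespace Pool.Agent.E8helper80.AX

open Finset Pool.Agent.TH176.Nag Polynomial

/-- the coefficient of `x ^ c * v ^ b` in the Laurent polynomial with the coefficients `f` (exponents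
with nonnegative second entry) after the substitution `y = 1 + (1 + v) / x` -/
noncomputable def tc {F : Type*} [Field F] (f : (ℤ × ℤ) →₀ F) (c : ℤ) (b : ℕ) : F :=
  f.sum fun p a => if p.1 < c then 0 else
    a * (((p.2.toNat.choose (p.1 - c).toNat * (p.1 - c).toNat.choose b : ℕ)) : F)

/-- the coefficient of `x ^ t * w ^ k` after `y = 1 + w` -/
noncomputable def wc {F : Type*} [Field F] (f : (ℤ × ℤ) →₀ F) (t : ℤ) (k : ℕ) : F :=
  f.sum fun p a => if p.1 = t then a * ((p.2.toNat.choose k : ℕ) : F) else 0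

/-- the column `t` as a polynomial in `y` -/
noncomputable def colp {F : Type*} [Field F] (f : (ℤ × ℤ) →₀ F) (t : ℤ) : Polynomial F :=
  f.sum fun p a => if p.1 = t then C a * X ^ p.2.toNat else 0

/-- the coefficient of `x ^ c` as a polynomial in `z = x (y - 1)` -/
noncomputable def ph {F : Type*} [Field F] (f : (ℤ × ℤ) →₀ F) (c : ℤ) : Polynomial F :=
  f.sum fun p a => if p.1 < c then 0 else
    C (a * ((p.2.toNat.choose (p.1 - c).toNat : ℕ) : F)) * X ^ (p.1 - c).toNat

/-- the polynomial in `s = 1 / x` which is the coefficient of `v ^ b` of `s ^ T f` -/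
noncomputable def hp {F : Type*} [Field F] (f : (ℤ × ℤ) →₀ F) (T b : ℕ) : Polynomial F :=
  f.sum fun p a => C (a * ((p.2.toNat.choose b : ℕ) : F)) * X ^ (((T : ℤ) - p.1).toNat + b) *
    (1 + X) ^ (p.2.toNat - b)

/-- the slope -/
noncomputable def KK : ℝ := 3 * (3 + √11) / 2

/-- the block with its apex `(0, h)` -/
def AB (h : ℕ) : Set (ℤ × ℤ) :=
  {p | 0 ≤ p.2 ∧ (KK - 9) * ((h : ℝ) - p.2) ≤ p.1 ∧ (p.1 : ℝ) ≤ KK * ((h : ℝ) - p.2)}

end Pool.Agent.E8helper80.AX
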