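import Pool.Agent.E8helper80.AX.MainH

/-! All degrees on the two sides of the anticanonical degree. -/

set_option autoImplicit false

namespace Pool.Agent.E8helper80.AX

open Finset Pool.Agent.TH176.Nag Pool.Agent.TH603.Sur Pool.Agent.TH603.Cut Pool.Agent.TH641.NW
  Pool.Agent.TH641.UM Pool.Agent.H932R3 Pool.Agent.TH978.S13

theorem choose_nine (h : ℕ) : Nat.choose (3 * h + 2) 2 = 9 * Nat.choose (h + 1) 2 + 1 := by
  have e1 := choose_two_mul (3 * h + 1)
  have e2 := choose_two_mul h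
  have e3 : 3 * h + 1 + 1 = 3 * h + 2 := rfl
  rw [e3] at e1
  nlinarith

/-- emptiness -/
theorem empH {M r k h m : ℕ} (hM : 1 ≤ M) (hr : 1 ≤ r) (hk : k + r * M = 9)
    (hG : M * h ^ 2 < (M + 2) * m ^ 2 ∨
      (M ≤ m ∧ (M : ℤ) * ((h : ℤ) - (M + 1)) ^ 2 < (M + 2) * ((m : ℤ) - M) ^ 2)) :
    Emp (fun i : Fin (k + r * (M + 2)) => if (i : ℕ) < k then h else m) (TZ (3 * h)) := by
  have hM9 : M ≤ 9 := by nlinarith
  have hsum : Pool.Agent.TH603.Sur.cond (fun i : Fin (k + r * (M + 2)) => if (i : ℕ) < k then h else m) =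
      k * Nat.choose (h + 1) 2 + r * (M + 2) * Nat.choose (m + 1) 2 := sum_wt k (r * (M + 2)) h m
  have h9 : 9 * Nat.choose (h + 1) 2 = k * Nat.choose (h + 1) 2 + r * (M * Nat.choose (h + 1) 2) := by
    rw [← hk]; ring
  rcases lt_or_ge (M * (h * h)) ((M + 2) * (m * m)) with h0 | h0
  · refine (Pool.Agent.TH864.SX.ED_of_or (dich_anti2 hM hr hk (Or.inl h0))).1 ?_
    rw [hsum, choose_nine, h9]
    have h1 : M * h < (M + 2) * m := by
      by_contra hcon
      push Not at hcon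
      have := Nat.mul_le_mul hcon hcon
      nlinarith
    have e1 := choose_two_mul h
    have e2 := choose_two_mul m
    have h2 : M * Nat.choose (h + 1) 2 + 1 ≤ (M + 2) * Nat.choose (m + 1) 2 := by
      nlinarith
    nlinarith
  rcases hG with hG | ⟨hG1, hG2⟩
  · exfalso
    rw [pow_two, pow_two] at hG
    omega
  have hm : 1 ≤ m := hM.trans hG1
  have hd0 := delta_nonneg hM h0
  have hh : M + 1 ≤ h := by
    by_contra hcon
    have h2 : h ≤ m := by omega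
    have h3 : h * h ≤ m * m := Nat.mul_le_mul h2 h2
    have h4 : 0 < m * m := Nat.mul_pos hm hm
    nlinarith
  obtain ⟨r, rfl⟩ : ∃ r', r = r' + 1 := ⟨r - 1, by omega⟩
  have hw : ∀ i : Fin ((r + 1) * (M + 2)) ⊕ Fin k,
      Sum.elim (fun _ : Fin ((r + 1) * (M + 2)) => m) (fun _ : Fin k => h) i =
      (fun i : Fin (k + (r + 1) * (M + 2)) => if (i : ℕ) < k then h else m)
        (((Equiv.sumComm _ _).trans finSumFinEquiv) i) := by
    rintro (i | i)
    · simp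
    · simp
  refine Emp_equiv _ hw (plane_emp hM (by rw [add_comm]; exact hk) (apexH hM hM9 hm hd0 ?_))
  have c1 : (0 : ℝ) ≤ (h : ℝ) - (M + 1) := by
    have : ((M + 1 : ℕ) : ℝ) ≤ h := by exact_mod_cast hh
    push_cast at this
    linarith
  have c2 : (0 : ℝ) ≤ (m : ℝ) - M := by
    have : (M : ℝ) ≤ m := by exact_mod_cast hG1
    linarith
  have h2 := lt_of_sq (a := (h : ℝ) - (M + 1)) (b := (m : ℝ) - M) hM c1 c2
    (by rw [← pow_two, ← pow_two]; exact_mod_cast hG2)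
  linarith

/-- independence -/
theorem surH {M r k h m : ℕ} (hM : 1 ≤ M) (hr : 1 ≤ r) (hk : k + r * M = 9)
    (hG : (M + 2) * Nat.choose (m + 1) 2 ≤ M * Nat.choose (h + 1) 2) :
    Sur (fun i : Fin (k + r * (M + 2)) => if (i : ℕ) < k then h else m) (TZ (3 * h)) := by
  have hsum : Pool.Agent.TH603.Sur.cond (fun i : Fin (k + r * (M + 2)) => if (i : ℕ) < k then h else m) =
      k * Nat.choose (h + 1) 2 + r * (M + 2) * Nat.choose (m + 1) 2 := sum_wt k (r * (M + 2)) h m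
  have h9 : 9 * Nat.choose (h + 1) 2 = k * Nat.choose (h + 1) 2 + r * (M * Nat.choose (h + 1) 2) := by
    rw [← hk]; ring
  refine (Pool.Agent.TH864.SX.ED_of_or (dichG blockEmp hM hr hk (Or.inr hG))).2 ?_
  rw [hsum, choose_nine, h9]
  nlinarith [Nat.mul_le_mul_left r hG]

/-- the expected dimension -/
theorem expDimH {M r k : ℕ} (hM : 1 ≤ M) (hr : 1 ≤ r) (hk : k + r * M = 9) (h m : ℕ) :
    ∃ F : MvPolynomial (Fin (k + r * (M + 2)) × Fin 2) ℚ, F ≠ 0 ∧
      ∀ {L : Type} [Field L] [CharZero L] (P : Fin (k + r * (M + 2)) → Fin 2 → L),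
        MvPolynomial.aeval (fun ij : Fin (k + r * (M + 2)) × Fin 2 => P ij.1 ij.2) F ≠ 0 →
        ∀ d : ℕ, ((d ≤ 3 * h ∧ (M * h ^ 2 < (M + 2) * m ^ 2 ∨
            (M ≤ m ∧ (M : ℤ) * ((h : ℤ) - (M + 1)) ^ 2 < (M + 2) * ((m : ℤ) - M) ^ 2))) ∨
          (3 * h ≤ d ∧ (M + 2) * Nat.choose (m + 1) 2 ≤ M * Nat.choose (h + 1) 2)) →
        ExpDim L (fun i => if (i : ℕ) < k then h else m) P d := by
  refine expDim_two (w := fun i : Fin (k + r * (M + 2)) => if (i : ℕ) < k then h else m)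
    (A := fun d => d ≤ 3 * h ∧ (M * h ^ 2 < (M + 2) * m ^ 2 ∨
            (M ≤ m ∧ (M : ℤ) * ((h : ℤ) - (M + 1)) ^ 2 < (M + 2) * ((m : ℤ) - M) ^ 2)))
    (B := fun d => 3 * h ≤ d ∧ (M + 2) * Nat.choose (m + 1) 2 ≤ M * Nat.choose (h + 1) 2)
    (3 * h) (fun d hd => hd.1) (fun d hd => ?_) (fun d hd => ?_)
  · exact (empH hM hr hk hd.2).mono (TZ_mono' hd.1)
  · exact (surH hM hr hk hd.2).mono (TZ_mono' hd.1)

end Pool.Agent.E8helper80.AX
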