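import Pool.Agent.TH978.S13.Anti4
import Pool.Agent.TH469.SX.Fifteen
import Pool.Agent.TH864.SX.Eleven
import Pool.Agent.E8helper80.AX.DefsG

/-! The window for the anticanonical degrees, from the emptiness of the blocks. -/

set_option autoImplicit false

namespace Pool.Agent.E8helper80.AX

open Finset Pool.Agent.TH176.Nag Pool.Agent.TH603.Sur Pool.Agent.TH603.Cut Pool.Agent.TH641.NW
  Pool.Agent.TH641.UM Pool.Agent.H932R3 Pool.Agent.TH978.S13

theorem KG_eq (M : ℕ) : KG M = KN M := rfl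

/-- bounds for the slope -/
theorem KG_facts {M : ℕ} (hM : 1 ≤ M) : (M : ℝ) < KG M ∧ KG M < M + 1 / 2 ∧
    2 * (KG M * (KG M - M)) = M ∧ Irrational (KG M) ∧ (M : ℝ) * (2 * M + 1 - 2 * KG M) < 1 / 2 := by
  obtain ⟨h1, h2, h3⟩ := slpN hM
  rw [← KG_eq] at h1 h2 h3
  have h4 := h1.eq
  push_cast at h4
  have hMR : (1 : ℝ) ≤ M := by exact_mod_cast hM
  have hs := sqN M
  have h6 : √((M * M + 2 * M : ℕ) : ℝ) < M + 1 := by
    rw [Real.sqrt_lt' (by linarith)]
    push_cast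
    nlinarith
  have h7 : (M : ℝ) + 1 - 1 / (2 * M) < √((M * M + 2 * M : ℕ) : ℝ) := by
    apply Real.lt_sqrt_of_sq_lt
    push_cast
    have h8 : ((M : ℝ) + 1 - 1 / (2 * M)) ^ 2 = M * M + 2 * M - 1 / M + 1 / (4 * M ^ 2) := by
      field_simp
      ring
    rw [h8]
    have h9 : (1 : ℝ) / (4 * M ^ 2) < 1 / M := by
      rw [div_lt_div_iff₀ (by positivity) (by positivity)]
      nlinarith
    linarith
  refine ⟨h2, ?_, h4, h1.irr, ?_⟩
  · unfold KG; linarith
  · have h10 : 2 * (M : ℝ) + 1 - 2 * KG M < 1 / (2 * M) := by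
      unfold KG
      linarith
    have h11 := mul_lt_mul_of_pos_left h10 (show (0 : ℝ) < M by linarith)
    have h12 : (M : ℝ) * (1 / (2 * M)) = 1 / 2 := by field_simp
    linarith

/-- from one block with its apex to the plane -/
theorem plane_emp {M r k h b m : ℕ} (hM : 1 ≤ M) (hk : (r + 1) * M + k = 9)
    (hE : Emp (fun _ : Fin b => m) (ABG M h)) :
    Emp (Sum.elim (fun _ : Fin ((r + 1) * b) => m) (fun _ : Fin k => h)) (TZ (3 * h)) := by
  obtain ⟨hS, hK1, hK2⟩ := slpN hM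
  obtain ⟨x, hx⟩ : ∃ x : ℝ, x = KN M - M := ⟨_, rfl⟩
  have hirr : Irrational x := by
    rw [hx]
    exact hS.irr.sub_natCast M
  have hx0 : 0 < x := by rw [hx]; linarith
  have hx3 : x < 3 := by rw [hx]; linarith
  have hxM : x + M = KN M := by rw [hx]; ring
  have ha : 1 ≤ (r + 1) * M := Nat.mul_pos (Nat.succ_pos r) hM
  have h9 : x + (((r + 1) * M + k : ℕ) : ℝ) = x + 9 := by rw [hk]; push_cast; ring
  have h2 : Emp (fun _ : Fin b => m) (Sc x (x + M) h ∪ {((0, (h : ℤ)) : ℤ × ℤ)}) := by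
    refine hE.mono ?_
    rintro p (⟨g1, g2, g3⟩ | hp)
    · refine ⟨g1, ?_, ?_⟩
      · rw [KG_eq, ← hx]; exact g2.le
      · rw [KG_eq, ← hxM]; exact g3.le
    · rw [Set.mem_singleton_iff] at hp
      rw [hp]
      refine ⟨by simp, ?_, ?_⟩
      · simp
      · simp
  have h3 := Emp_units ha hirr (Emp_blocks hM hirr h2 r) k
  rw [h9] at h3
  exact Emp_plane9 hirr hx0 hx3 h3

/-- from one block without its apex to the plane -/
theorem plane_sur {M r k h b m : ℕ} (hM : 1 ≤ M) (hk : (r + 1) * M + k = 9)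
    (hE : Sur (fun _ : Fin b => m) (Sc (KN M - M) (KN M - M + M) h)) :
    Sur (Sum.elim (fun _ : Fin ((r + 1) * b) => m) (fun _ : Fin k => h)) (TZ (3 * h)) := by
  obtain ⟨hS, hK1, hK2⟩ := slpN hM
  obtain ⟨x, hx⟩ : ∃ x : ℝ, x = KN M - M := ⟨_, rfl⟩
  rw [← hx] at hE
  have hirr : Irrational x := by
    rw [hx]
    exact hS.irr.sub_natCast M
  have hx0 : 0 < x := by rw [hx]; linarith
  have hx3 : x < 3 := by rw [hx]; linarith
  have ha : 1 ≤ (r + 1) * M := Nat.mul_pos (Nat.succ_pos r) hM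
  have h9 : x + (((r + 1) * M + k : ℕ) : ℝ) = x + 9 := by rw [hk]; push_cast; ring
  have h3 := Sur_units ha hirr (Sur_blocks hM hE r) k
  rw [h9] at h3
  exact Sur_plane9 hirr hx0 hx3 h3

/-- equality of the numbers: emptiness of the block without its apex is independence -/
theorem sur_of_eq {M h m : ℕ} (hM : 1 ≤ M) (hE : Emp (fun _ : Fin (M + 2) => m) (Sc (KN M - M) (KN M - M + M) h))
    (hc : (M + 2) * Nat.choose (m + 1) 2 = M * Nat.choose (h + 1) 2) :
    Sur (fun _ : Fin (M + 2) => m) (Sc (KN M - M) (KN M - M + M) h) := by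
  obtain ⟨hS, hK1, hK2⟩ := slpN hM
  have hirr : Irrational (KN M - M) := hS.irr.sub_natCast M
  obtain ⟨M', rfl⟩ : ∃ M', M = M' + 1 := ⟨M - 1, by omega⟩
  have h1 : Sur (fun _ : Fin 1 => h) (Sc (KN (M' + 1) - (M' + 1 : ℕ)) (KN (M' + 1) - (M' + 1 : ℕ) + (1 : ℕ)) h) := by
    have := Sur_unit hirr h
    simpa using this
  have h2 := Sur_units (a := 1) le_rfl hirr h1 M'
  have e : (1 + M' : ℕ) = M' + 1 := by ring
  rw [e] at h2
  obtain ⟨T, hT1, hT2, -⟩ := h2
  refine ⟨T, hT1, ?_, hE.mono hT1⟩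
  rw [hT2]
  unfold Pool.Agent.TH603.Sur.cond
  rw [Fintype.sum_sum_type]
  simp only [Sum.elim_inl, Sum.elim_inr, sum_const, card_univ, Fintype.card_fin, smul_eq_mul]
  rw [hc]
  ring

theorem delta_nonneg {M h m : ℕ} (hM : 1 ≤ M) (hG : (M + 2) * (m * m) ≤ M * (h * h)) :
    0 ≤ KG M * h - (KG M + 1) * m := by
  obtain ⟨h1, h2, h3, -, -⟩ := KG_facts hM
  have hMR : (1 : ℝ) ≤ M := by exact_mod_cast hM
  have hK0 : 0 < KG M := by linarith
  have hKK : (KG M + 1) ^ 2 * M = (M + 2) * KG M ^ 2 := by linear_combination -h3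
  by_contra hcon
  push Not at hcon
  have h4 : KG M * h < (KG M + 1) * m := by linarith
  have h5 : KG M * h * (KG M * h) < (KG M + 1) * m * ((KG M + 1) * m) :=
    mul_self_lt_mul_self (by positivity) h4
  have h6 := mul_lt_mul_of_pos_left h5 (show (0 : ℝ) < M by linarith)
  have h7 : (M : ℝ) * ((KG M + 1) * m * ((KG M + 1) * m)) = (M + 2) * KG M ^ 2 * (m * m) := by
    linear_combination (m * m : ℝ) * hKK
  rw [h7] at h6
  have h8 : ((M : ℝ) + 2) * (m * m) ≤ M * (h * h) := by exact_mod_cast hG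
  have h9 : 0 < KG M ^ 2 := by positivity
  nlinarith [mul_le_mul_of_nonneg_left h8 h9.le]

/-- comparison of the two sides with shifts -/
theorem lt_of_sq {M : ℕ} {a b : ℝ} (hM : 1 ≤ M) (ha : 0 ≤ a) (hb : 0 ≤ b)
    (hG : (M : ℝ) * (a * a) < (M + 2) * (b * b)) : KG M * a < (KG M + 1) * b := by
  obtain ⟨h1, h2, h3, -, -⟩ := KG_facts hM
  have hMR : (1 : ℝ) ≤ M := by exact_mod_cast hM
  have hK0 : 0 < KG M := by linarith
  have hKK : (KG M + 1) ^ 2 * M = (M + 2) * KG M ^ 2 := by linear_combination -h3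
  by_contra hcon
  push Not at hcon
  have h5 : (KG M + 1) * b * ((KG M + 1) * b) ≤ KG M * a * (KG M * a) :=
    mul_self_le_mul_self (by positivity) hcon
  have h6 := mul_le_mul_of_nonneg_left h5 (show (0 : ℝ) ≤ M by linarith)
  have h7 : (M : ℝ) * ((KG M + 1) * b * ((KG M + 1) * b)) = (M + 2) * KG M ^ 2 * (b * b) := by
    linear_combination (b * b : ℝ) * hKK
  rw [h7] at h6
  have h9 : 0 < KG M ^ 2 := by positivity
  nlinarith [mul_lt_mul_of_pos_left hG h9]

/-- the two statements about the block -/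
structure BlockEmp : Prop where
  apex : ∀ M h m : ℕ, 1 ≤ M → M ≤ 9 → 1 ≤ m → 0 ≤ KG M * h - (KG M + 1) * m →
    KG M * h - (KG M + 1) * m < M * (2 * M + 1 - 2 * KG M) → Emp (fun _ : Fin (M + 2) => m) (ABG M h)
  free : ∀ M h m : ℕ, 1 ≤ M → 0 ≤ KG M * h - (KG M + 1) * m →
    KG M * h - (KG M + 1) * m < 1 / 2 → Emp (fun _ : Fin (M + 2) => m) (Sc (KN M - M) (KN M - M + M) h)

/-- `k` points of multiplicity `h`, then `r (M + 2)` points of multiplicity `m` -/
theorem dichG (H : BlockEmp) {M r k h m : ℕ} (hM : 1 ≤ M) (hr : 1 ≤ r) (hk : k + r * M = 9)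
    (hG : M * (h + M * (2 * M + 3)) ^ 2 < (M + 2) * (m + M * (2 * M + 1)) ^ 2 ∨
      (M + 2) * Nat.choose (m + 1) 2 ≤ M * Nat.choose (h + 1) 2) :
    Emp (fun i : Fin (k + r * (M + 2)) => if (i : ℕ) < k then h else m) (TZ (3 * h)) ∨
    Sur (fun i : Fin (k + r * (M + 2)) => if (i : ℕ) < k then h else m) (TZ (3 * h)) := by
  have hM9 : M ≤ 9 := by nlinarith
  rcases lt_or_ge (M * (h * h)) ((M + 2) * (m * m)) with h0 | h0
  · exact dich_anti2 hM hr hk (Or.inl h0)
  rcases le_or_gt ((M + 2) * ((2 * m + 1) * (2 * m + 1))) (M * ((2 * h + 1) * (2 * h + 1))) with h1 | h1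
  · exact dich_anti2 hM hr hk (Or.inr h1)
  rcases Nat.eq_zero_or_pos m with rfl | hm
  · right
    have hh : h = 0 := by
      by_contra hcon
      have : 1 ≤ h := Nat.pos_of_ne_zero hcon
      have h2 : 9 ≤ (2 * h + 1) * (2 * h + 1) := by nlinarith
      have h3 := Nat.mul_le_mul_left M h2
      omega
    subst hh
    refine ⟨∅, by simp, by simp [Pool.Agent.TH603.Sur.cond], ℚ, inferInstance, inferInstance,
      fun _ => 1, fun _ => 1, fun _ => one_ne_zero, fun _ => one_ne_zero, ?_⟩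
    intro f hf _
    ext p
    by_contra hp
    have := hf (Finsupp.mem_support_iff.2 hp)
    simp at this
  have hd0 := delta_nonneg hM h0
  have hd1 : KG M * h - (KG M + 1) * m < 1 / 2 := by
    have h2 := lt_of_sq (a := 2 * h + 1) (b := 2 * m + 1) hM (by positivity) (by positivity)
      (by exact_mod_cast h1)
    linarith
  obtain ⟨r, rfl⟩ : ∃ r', r = r' + 1 := ⟨r - 1, by omega⟩
  have hw : ∀ i : Fin ((r + 1) * (M + 2)) ⊕ Fin k,
      Sum.elim (fun _ : Fin ((r + 1) * (M + 2)) => m) (fun _ : Fin k => h) i =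
      (fun i : Fin (k + (r + 1) * (M + 2)) => if (i : ℕ) < k then h else m)
        (((Equiv.sumComm _ _).trans finSumFinEquiv) i) := by
    rintro (i | i)
    · simp
    · simp
  rcases hG with hG | hG
  · left
    refine Emp_equiv _ hw (plane_emp hM (by rw [add_comm]; exact hk) (H.apex M h m hM hM9 hm hd0 ?_))
    have h2 := lt_of_sq (a := (h : ℝ) + M * (2 * M + 3)) (b := (m : ℝ) + M * (2 * M + 1)) hM
      (by positivity) (by positivity) (by rw [← pow_two, ← pow_two]; exact_mod_cast hG)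
    linarith
  · right
    have e1 := choose_two_mul h
    have e2 := choose_two_mul m
    rw [← e1, ← e2] at h1
    exact Sur_equiv _ hw (plane_sur hM (by rw [add_comm]; exact hk)
      (sur_of_eq hM (H.free M h m hM hd0 hd1) (by nlinarith)))

end Pool.Agent.E8helper80.AX
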