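import Pool.Agent.E8helper80.AX.A3
import Pool.Agent.E8helper80.AX.WinG
import Pool.Agent.E8helper82.AX.B2G
import Pool.Agent.E8helper62.AXG.B3G

/-! The blocks of `M + 2` points: assembly. -/

set_option autoImplicit false

namespace Pool.Agent.E8helper80.AX

open Finset Pool.Agent.TH176.Nag Pool.Agent.TH603.Sur Pool.Agent.TH603.Cut Pool.Agent.TH641.NW
  Pool.Agent.TH641.UM Pool.Agent.H932R3 Pool.Agent.TH978.S13

theorem ABG_pos {M h : ℕ} (hM : 1 ≤ M) {p : ℤ × ℤ} (hp : p ∈ ABG M h) : 0 ≤ p.1 ∧ 0 ≤ p.2 := by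
  obtain ⟨h1, h2, h3⟩ := hp
  obtain ⟨k1, k2, -, -, -⟩ := KG_facts hM
  have hMR : (1 : ℝ) ≤ M := by exact_mod_cast hM
  have h4 : 0 ≤ (M : ℝ) * ((h : ℝ) - p.2) := by linarith
  have h5 : 0 ≤ (h : ℝ) - p.2 := by
    by_contra hcon
    push Not at hcon
    have := mul_neg_of_pos_of_neg (show (0 : ℝ) < M by linarith) hcon
    linarith
  have h6 : 0 ≤ (KG M - M) * ((h : ℝ) - p.2) := mul_nonneg (by linarith) h5
  refine ⟨?_, h1⟩
  have : (0 : ℝ) ≤ p.1 := by linarith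
  exact_mod_cast this

theorem ABG_Y {M h : ℕ} (hM : 1 ≤ M) {p : ℤ × ℤ} (hp : p ∈ ABG M h) {b k : ℕ} (hb : b ≤ k)
    (hk : (k : ℤ) ≤ p.2) : p.1 - k ≤ ⌊KG M * h - (KG M + 1) * (b : ℝ)⌋ := by
  obtain ⟨h1, h2, h3⟩ := hp
  obtain ⟨k1, k2, -, -, -⟩ := KG_facts hM
  have hMR : (1 : ℝ) ≤ M := by exact_mod_cast hM
  rw [Int.le_floor]
  have h4 : (k : ℝ) ≤ p.2 := by exact_mod_cast hk
  have h5 : (b : ℝ) ≤ k := by exact_mod_cast hb
  have h6 : KG M * (k : ℝ) ≤ KG M * p.2 := mul_le_mul_of_nonneg_left h4 (by linarith)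
  have h7 : (KG M + 1) * (b : ℝ) ≤ (KG M + 1) * k := mul_le_mul_of_nonneg_left h5 (by linarith)
  push_cast
  linarith

/-- emptiness of a part of the block from the limit -/
theorem emp_part {M h m : ℕ} (hM : 1 ≤ M) {S : Set (ℤ × ℤ)} (hS : S ⊆ ABG M h)
    (hlim : ∀ f : (ℤ × ℤ) →₀ ℚ, (↑f.support : Set (ℤ × ℤ)) ⊆ S →
      (∀ b < m, ∀ c : ℤ, ⌊KG M * h - (KG M + 1) * (b : ℝ)⌋ < c + ((M : ℤ) + 2) * ((m : ℤ) - b) →
        tc f c b = 0) → f = 0) :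
    Emp (fun _ : Fin (M + 2) => m) S := by
  refine Emp_of_limit (n := M + 2) (fun p hp => ABG_pos hM (hS hp))
    (fun b => ⌊KG M * h - (KG M + 1) * (b : ℝ)⌋) (fun p hp b k hb hk => ABG_Y hM (hS hp) hb hk) ?_
  intro f hf hH
  refine hlim f hf fun b hb c hc => hH b hb c ?_
  push_cast
  exact hc

theorem blockEmp : BlockEmp := by
  refine ⟨?_, ?_⟩
  · intro M h m hM hM9 hm hd0 hd1
    obtain ⟨-, -, -, -, k5⟩ := KG_facts hM
    refine emp_part hM subset_rfl fun f hf hH => ?_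
    exact apexfreeG hM hd0 (by linarith) hf
      (Pool.Agent.E8helper62.AXG.apexzeroG hM hM9 hm hd0 hd1 hf hH) hH
  · intro M h m hM hd0 hd1
    have hsub : Sc (KN M - M) (KN M - M + M) h ⊆ ABG M h := by
      rintro p ⟨g1, g2, g3⟩
      refine ⟨g1, ?_, ?_⟩
      · rw [KG_eq]; exact g2.le
      · rw [KG_eq]
        have e : KN M - M + M = KN M := by ring
        rw [e] at g3
        exact g3.le
    refine emp_part hM hsub fun f hf hH => ?_
    refine apexfreeG hM hd0 hd1 (hf.trans hsub) ?_ hH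
    by_contra hne
    have h1 := hf (Finsupp.mem_support_iff.2 hne)
    obtain ⟨-, g2, -⟩ := h1
    simp at g2

end Pool.Agent.E8helper80.AX
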