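import Pool.Agent.E8helper80.AX.MainG
import Pool.Agent.E8helper39.AXH.Fin

/-! The blocks of `M + 2` points: assembly with the larger range. -/

set_option autoImplicit false

namespace Pool.Agent.E8helper80.AX

open Finset Pool.Agent.TH176.Nag Pool.Agent.TH603.Sur Pool.Agent.TH603.Cut Pool.Agent.TH641.NW
  Pool.Agent.TH641.UM Pool.Agent.H932R3 Pool.Agent.TH978.S13

theorem apexH {M h m : ℕ} (hM : 1 ≤ M) (hM9 : M ≤ 9) (hm : 1 ≤ m)
    (hd0 : 0 ≤ KG M * h - (KG M + 1) * m) (hd1 : KG M * h - (KG M + 1) * m < KG M - M) :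
    Emp (fun _ : Fin (M + 2) => m) (ABG M h) := by
  rcases lt_or_ge (KG M * h - (KG M + 1) * m) ((M : ℝ) * (2 * M + 1 - 2 * KG M)) with h1 | h1
  · exact blockEmp.apex M h m hM hM9 hm hd0 h1
  obtain ⟨-, k2, -, -, -⟩ := KG_facts hM
  refine emp_part hM subset_rfl fun f hf hH => ?_
  exact apexfreeG hM hd0 (by linarith) hf
    (Pool.Agent.E8helper39.AXH.apexzeroH hM hM9 h1 hd1 hf hH) hH

/-- `k` points of multiplicity `h`, then `r (M + 2)` points of multiplicity `m` -/
theorem dichH {M r k h m : ℕ} (hM : 1 ≤ M) (hr : 1 ≤ r) (hk : k + r * M = 9)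
    (hG : M * h ^ 2 < (M + 2) * m ^ 2 ∨
      (M ≤ m ∧ (M : ℤ) * ((h : ℤ) - (M + 1)) ^ 2 < (M + 2) * ((m : ℤ) - M) ^ 2) ∨
      (M + 2) * Nat.choose (m + 1) 2 ≤ M * Nat.choose (h + 1) 2) :
    Emp (fun i : Fin (k + r * (M + 2)) => if (i : ℕ) < k then h else m) (TZ (3 * h)) ∨
    Sur (fun i : Fin (k + r * (M + 2)) => if (i : ℕ) < k then h else m) (TZ (3 * h)) := by
  have hM9 : M ≤ 9 := by nlinarith
  rcases hG with hG | ⟨hG1, hG2⟩ | hG
  · exact dich_anti2 hM hr hk (Or.inl (by rw [← pow_two, ← pow_two]; exact hG))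
  · rcases lt_or_ge (M * (h * h)) ((M + 2) * (m * m)) with h0 | h0
    · exact dich_anti2 hM hr hk (Or.inl h0)
    have hm : 1 ≤ m := hM.trans hG1
    have hd0 := delta_nonneg hM h0
    -- the case of small h
    have hh : M + 1 ≤ h := by
      by_contra hcon
      have h2 : h ≤ m := by omega
      have h3 : h * h ≤ m * m := Nat.mul_le_mul h2 h2
      have h4 : 0 < m * m := Nat.mul_pos hm hm
      nlinarith
    obtain ⟨r, rfl⟩ : ∃ r', r = r' + 1 := ⟨r - 1, by omega⟩
    have hw : ∀ i : Fin ((r + 1) * (M + 2)) ⊕ Fin k,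
        Sum.elim (fun _ : Fin ((r + 1) * (M + 2)) => m) (fun _ : Fin k => h) i =
        (fun i : Fin (k + (r + 1) * (M + 2)) => if (i : ℕ) < k then h else m)
          (((Equiv.sumComm _ _).trans finSumFinEquiv) i) := by
      rintro (i | i)
      · simp
      · simp
    left
    refine Emp_equiv _ hw (plane_emp hM (by rw [add_comm]; exact hk) (apexH hM hM9 hm hd0 ?_))
    have c1 : (0 : ℝ) ≤ (h : ℝ) - (M + 1) := by
      have : ((M + 1 : ℕ) : ℝ) ≤ h := by exact_mod_cast hh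
      push_cast at this
      linarith
    have c2 : (0 : ℝ) ≤ (m : ℝ) - M := by
      have : (M : ℝ) ≤ m := by exact_mod_cast hG1
      linarith
    have h2 := lt_of_sq (a := (h : ℝ) - (M + 1)) (b := (m : ℝ) - M) hM c1 c2
      (by rw [← pow_two, ← pow_two]; exact_mod_cast hG2)
    linarith
  · exact dichG blockEmp hM hr hk (Or.inr hG)

end Pool.Agent.E8helper80.AX
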