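import Pool.Agent.E8helper80.AX.Simple
import Pool.Agent.E8helper80.AX.Deg

/-! Blocks with different multiplicities. -/

set_option autoImplicit false

namespace Pool.Agent.E8helper80.AX

open Finset Pool.Agent.TH176.Nag Pool.Agent.TH603.Sur Pool.Agent.TH603.Cut Pool.Agent.TH641.NW
  Pool.Agent.TH641.UM Pool.Agent.H932R3 Pool.Agent.TH978.S13 Pool.Agent.TH469.SX
open Pool.Agent.TH864.SX (Fb Fa Slp)

theorem dichN_left {M h m : ℕ} (hM : 1 ≤ M) (hG : M * (h * h) < (M + 2) * (m * m)) :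
    Emp (fun _ : Fin (M + 2) => m) (Fa 2 (KN M) (3 * h)) := by
  obtain ⟨hS, hK1, hK2⟩ := slpN hM
  have hK0 := hS.K0
  have hMR : (1 : ℝ) ≤ M := by exact_mod_cast hM
  have hK : ((2 : ℕ) : ℝ) * (KN M * (KN M - (M : ℕ))) = (M : ℕ) := hS.eq
  have hpq : 1 * 2 = 2 := rfl
  have hcard : Fintype.card (Fin (M + 2)) = M + 2 * 1 := by simp
  have hKK : (KN M + 1) ^ 2 * M = (M + 2) * KN M ^ 2 := by
    push_cast at hK
    linear_combination -hK
  obtain ⟨A, hA⟩ : ∃ A : ℝ, A = KN M * (3 * h : ℕ) / 3 := ⟨_, rfl⟩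
  have hAh : A = KN M * h := by rw [hA]; push_cast; ring
  have hA0 : 0 ≤ A := by rw [hAh]; positivity
  refine (Emp_apex hpq hK0 hK hcard hA0 ?_).mono ?_
  · by_contra hcon
    push Not at hcon
    push_cast at hcon
    rw [hAh] at hcon
    have h1 : (m : ℝ) * (KN M + 1) * ((m : ℝ) * (KN M + 1)) ≤ KN M * h * (KN M * h) :=
      mul_self_le_mul_self (by positivity) hcon
    have h2 : ((M : ℝ) + 2) * KN M ^ 2 * (m * m) ≤ M * (KN M ^ 2 * (h * h)) := by
      have h3 := mul_le_mul_of_nonneg_left h1 (show (0 : ℝ) ≤ M by linarith)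
      have h4 : (M : ℝ) * ((m : ℝ) * (KN M + 1) * ((m : ℝ) * (KN M + 1))) =
          (M + 2) * KN M ^ 2 * (m * m) := by
        linear_combination (m * m : ℝ) * hKK
      rw [h4] at h3
      linarith
    have h5 : (M : ℝ) * (h * h) < (M + 2) * (m * m) := by exact_mod_cast hG
    have h6 : 0 < KN M ^ 2 := by positivity
    nlinarith [mul_lt_mul_of_pos_left h5 h6]
  · rw [hA]
    exact Fa_sub 2 (KN M) (3 * h)

theorem dichN_right {M h m : ℕ} (hM : 1 ≤ M)
    (hG : (M + 2) * ((2 * m + 1) * (2 * m + 1)) ≤ M * ((2 * h + 1) * (2 * h + 1))) :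
    Sur (fun _ : Fin (M + 2) => m) (Fb 2 (KN M) (3 * h)) := by
  obtain ⟨hS, hK1, hK2⟩ := slpN hM
  have hK0 := hS.K0
  have hMR : (1 : ℝ) ≤ M := by exact_mod_cast hM
  have hK : ((2 : ℕ) : ℝ) * (KN M * (KN M - (M : ℕ))) = (M : ℕ) := hS.eq
  have hpq : 1 * 2 = 2 := rfl
  have hcard : Fintype.card (Fin (M + 2)) = M + 2 * 1 := by simp
  have hKK : (KN M + 1) ^ 2 * M = (M + 2) * KN M ^ 2 := by
    push_cast at hK
    linear_combination -hK
  obtain ⟨A, hA⟩ : ∃ A : ℝ, A = KN M * (3 * h : ℕ) / 3 := ⟨_, rfl⟩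
  have hAh : A = KN M * h := by rw [hA]; push_cast; ring
  have hA0 : 0 ≤ A := by rw [hAh]; positivity
  rw [Fb_eq, ← hA]
  refine Sur_blk hpq hK0 hK hcard ?_
  by_contra hcon
  push Not at hcon
  push_cast at hcon
  rw [hAh] at hcon
  have h0 : KN M * (2 * h + 1) < (KN M + 1) * (2 * m + 1) := by linarith
  have h1 : KN M * (2 * h + 1) * (KN M * (2 * h + 1)) <
      (KN M + 1) * (2 * m + 1) * ((KN M + 1) * (2 * m + 1)) :=
    mul_self_lt_mul_self (by positivity) h0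
  have h3 := mul_lt_mul_of_pos_left h1 (show (0 : ℝ) < M by linarith)
  have h4 : (M : ℝ) * ((KN M + 1) * (2 * m + 1) * ((KN M + 1) * (2 * m + 1))) =
      (M + 2) * KN M ^ 2 * ((2 * m + 1) * (2 * m + 1)) := by
    linear_combination ((2 * m + 1) * (2 * m + 1) : ℝ) * hKK
  rw [h4] at h3
  have h5 : ((M : ℝ) + 2) * ((2 * m + 1) * (2 * m + 1)) ≤ M * ((2 * h + 1) * (2 * h + 1)) := by
    exact_mod_cast hG
  have h6 : 0 < KN M ^ 2 := by positivity
  nlinarith [mul_le_mul_of_nonneg_left h5 h6.le]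

/-- a block with its apex, negative self-intersection -/
theorem blkA1 {M h m : ℕ} (hM : 1 ≤ M) (hG : M * (h * h) < (M + 2) * (m * m)) :
    Emp (fun _ : Fin (M + 2) => m) (Sc (KN M - M) (KN M - M + M) h ∪ {((0, (h : ℤ)) : ℤ × ℤ)}) := by
  obtain ⟨hS, hK1, hK2⟩ := slpN hM
  have hd : (((3 * h : ℕ) : ℝ)) / 3 = h := by push_cast; ring
  have h1 := Pool.Agent.TH864.SX.Emp_blk hS (dichN_left hM hG)
  refine h1.mono ?_
  rintro p (⟨g1, g2, g3⟩ | hp)
  · refine ⟨g1, ?_, ?_⟩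
    · rw [hd]; exact g2.le
    · rw [hd]
      have e : KN M - M + M = KN M := by ring
      rw [e] at g3
      exact g3.le
  · rw [Set.mem_singleton_iff] at hp
    rw [hp]
    refine ⟨by simp, ?_, ?_⟩
    · rw [hd]; simp
    · rw [hd]; simp

/-- a block with its apex -/
theorem blkA {M h m : ℕ} (hM : 1 ≤ M) (hM9 : M ≤ 9)
    (hG : M * h ^ 2 < (M + 2) * m ^ 2 ∨
      (M ≤ m ∧ (M : ℤ) * ((h : ℤ) - (M + 1)) ^ 2 < (M + 2) * ((m : ℤ) - M) ^ 2)) :
    Emp (fun _ : Fin (M + 2) => m) (Sc (KN M - M) (KN M - M + M) h ∪ {((0, (h : ℤ)) : ℤ × ℤ)}) := by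
  rcases lt_or_ge (M * (h * h)) ((M + 2) * (m * m)) with h0 | h0
  · exact blkA1 hM h0
  rcases hG with hG | ⟨hG1, hG2⟩
  · exfalso
    rw [pow_two, pow_two] at hG
    omega
  have hm : 1 ≤ m := hM.trans hG1
  have hd0 := delta_nonneg hM h0
  have hh : M + 1 ≤ h := by
    by_contra hcon
    have h2 : h ≤ m := by omega
    have h3 : h * h ≤ m * m := Nat.mul_le_mul h2 h2
    have h4 : 0 < m * m := Nat.mul_pos hm hm
    nlinarith
  have c1 : (0 : ℝ) ≤ (h : ℝ) - (M + 1) := by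
    have : ((M + 1 : ℕ) : ℝ) ≤ h := by exact_mod_cast hh
    push_cast at this
    linarith
  have c2 : (0 : ℝ) ≤ (m : ℝ) - M := by
    have : (M : ℝ) ≤ m := by exact_mod_cast hG1
    linarith
  have h2 := lt_of_sq (a := (h : ℝ) - (M + 1)) (b := (m : ℝ) - M) hM c1 c2
    (by rw [← pow_two, ← pow_two]; exact_mod_cast hG2)
  refine (apexH hM hM9 hm hd0 (by linarith)).mono ?_
  rintro p (⟨g1, g2, g3⟩ | hp)
  · refine ⟨g1, ?_, ?_⟩
    · rw [KG_eq]; exact g2.le
    · rw [KG_eq]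
      have e : KN M - M + M = KN M := by ring
      rw [e] at g3
      exact g3.le
  · rw [Set.mem_singleton_iff] at hp
    rw [hp]
    refine ⟨by simp, ?_, ?_⟩
    · simp
    · simp

/-- a block without its apex -/
theorem blkB {M h m : ℕ} (hM : 1 ≤ M)
    (hG : M * Nat.choose (h + 1) 2 ≤ (M + 2) * Nat.choose (m + 1) 2) :
    Emp (fun _ : Fin (M + 2) => m) (Sc (KN M - M) (KN M - M + M) h) := by
  rcases lt_or_ge (M * (h * h)) ((M + 2) * (m * m)) with h0 | h0
  · exact (blkA1 hM h0).mono Set.subset_union_left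
  have e1 := choose_two_mul h
  have e2 := choose_two_mul m
  have h1 : M * ((2 * h + 1) * (2 * h + 1)) < (M + 2) * ((2 * m + 1) * (2 * m + 1)) := by
    rw [← e1, ← e2]
    nlinarith
  have h2 := lt_of_sq (a := 2 * h + 1) (b := 2 * m + 1) hM (by positivity) (by positivity)
    (by exact_mod_cast h1)
  exact blockEmp.free M h m hM (delta_nonneg hM h0) (by linarith)

/-- independence for a block -/
theorem blkC {M h m : ℕ} (hM : 1 ≤ M)
    (hG : (M + 2) * Nat.choose (m + 1) 2 ≤ M * Nat.choose (h + 1) 2) :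
    Sur (fun _ : Fin (M + 2) => m) (Sc (KN M - M) (KN M - M + M) h) := by
  rcases le_or_gt ((M + 2) * ((2 * m + 1) * (2 * m + 1))) (M * ((2 * h + 1) * (2 * h + 1))) with h1 | h1
  · obtain ⟨hS, hK1, hK2⟩ := slpN hM
    have hd : (((3 * h : ℕ) : ℝ)) / 3 = h := by push_cast; ring
    refine (Sur_bo hS (dichN_right hM h1)).mono ?_
    rintro p ⟨g1, g2, g3⟩
    rw [hd] at g2 g3
    have e : KN M - M + M = KN M := by ring
    exact ⟨g1, g2, by rw [e]; exact g3⟩
  · have e1 := choose_two_mul h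
    have e2 := choose_two_mul m
    rw [← e1, ← e2] at h1
    have h2 : (M + 2) * Nat.choose (m + 1) 2 = M * Nat.choose (h + 1) 2 := by nlinarith
    exact sur_of_eq hM (blkB hM h2.ge) h2

/-- a first block and `r` blocks without apex -/
theorem Emp_multi {ι : Type} [Finite ι] {w0 : ι → ℕ} {b h M : ℕ} {x : ℝ} (hM : 1 ≤ M) (hx : Irrational x)
    (hE0 : Emp w0 (Sc x (x + M) h ∪ {((0, (h : ℤ)) : ℤ × ℤ)})) (r : ℕ) (m : Fin r → ℕ)
    (hE : ∀ j, Emp (fun _ : Fin b => m j) (Sc x (x + M) h)) :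
    Emp (Sum.elim w0 (fun p : Fin r × Fin b => m p.1))
      (Sc x (x + ((r + 1) * M : ℕ)) h ∪ {((0, (h : ℤ)) : ℤ × ℤ)}) := by
  have hMR : (1 : ℝ) ≤ M := by exact_mod_cast hM
  induction r with
  | zero =>
    have e1 : x + (((0 + 1) * M : ℕ) : ℝ) = x + M := by push_cast; ring
    rw [e1]
    exact Emp_emb Sum.inl Sum.inl_injective (fun i => by simp) hE0
  | succ r ih =>
    have ih := ih (fun j => m j.castSucc) (fun j => hE _)
    have h2 : Emp (fun _ : Fin b => m (Fin.last r))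
        (Sc (x + (((r + 1) * M : ℕ) : ℤ)) (x + M + (((r + 1) * M : ℕ) : ℤ)) h) :=
      Emp_shift _ (hE _)
    have e1 : x + (((r + 1 + 1) * M : ℕ) : ℝ) = x + M + ((((r + 1) * M : ℕ) : ℤ) : ℝ) := by
      push_cast; ring
    have e2 : x + (((r + 1) * M : ℕ) : ℝ) = x + ((((r + 1) * M : ℕ) : ℤ) : ℝ) := by
      push_cast; ring
    rw [e1]
    rw [e2] at ih
    have h0 : (0 : ℝ) < ((((r + 1) * M : ℕ) : ℤ) : ℝ) := by
      have : 0 < (r + 1) * M := by positivity
      exact_mod_cast this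
    have key := Emp_add (x := x) (y := x + ((((r + 1) * M : ℕ) : ℤ) : ℝ))
      (z := x + M + ((((r + 1) * M : ℕ) : ℤ) : ℝ)) (by linarith) (by linarith) (hx.add_intCast _) ih h2
    refine Emp_emb (Sum.elim (Sum.map id (fun p : Fin r × Fin b => (p.1.castSucc, p.2)))
      (fun i => Sum.inr (Fin.last r, i))) ?_ ?_ key
    · rintro ((i | i) | i) ((j | j) | j) hij <;>
        simp only [Sum.elim_inl, Sum.elim_inr, Sum.map_inl, Sum.map_inr, id, Sum.inl.injEq, Sum.inr.injEq,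
          Prod.mk.injEq, reduceCtorEq, Fin.castSucc_inj] at hij
      · rw [hij]
      · rw [Prod.ext hij.1 hij.2]
      · exact absurd hij.1 (Fin.castSucc_lt_last _).ne
      · exact absurd hij.1.symm (Fin.castSucc_lt_last _).ne
      · rw [hij.2]
    · rintro ((i | i) | i) <;> simp

/-- independence for blocks -/
theorem Sur_multi {b h M : ℕ} {x : ℝ} (hM : 1 ≤ M) (r : ℕ) (m : Fin (r + 1) → ℕ)
    (hE : ∀ j, Sur (fun _ : Fin b => m j) (Sc x (x + M) h)) :
    Sur (fun p : Fin (r + 1) × Fin b => m p.1) (Sc x (x + ((r + 1) * M : ℕ)) h) := by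
  have hMR : (1 : ℝ) ≤ M := by exact_mod_cast hM
  induction r with
  | zero =>
    have e1 : x + (((0 + 1) * M : ℕ) : ℝ) = x + M := by push_cast; ring
    rw [e1]
    exact Sur_equiv (Equiv.uniqueProd (Fin b) (Fin 1)).symm (fun _ => rfl) (hE 0)
  | succ r ih =>
    have ih := ih (fun j => m j.castSucc) (fun j => hE _)
    have h2 : Sur (fun _ : Fin b => m (Fin.last (r + 1)))
        (Sc (x + (((r + 1) * M : ℕ) : ℤ)) (x + M + (((r + 1) * M : ℕ) : ℤ)) h) :=
      Sur_shift _ (hE _)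
    have e1 : x + (((r + 1 + 1) * M : ℕ) : ℝ) = x + M + ((((r + 1) * M : ℕ) : ℤ) : ℝ) := by
      push_cast; ring
    have e2 : x + (((r + 1) * M : ℕ) : ℝ) = x + ((((r + 1) * M : ℕ) : ℤ) : ℝ) := by
      push_cast; ring
    rw [e1]
    rw [e2] at ih
    have h0 : (0 : ℝ) < ((((r + 1) * M : ℕ) : ℤ) : ℝ) := by
      have : 0 < (r + 1) * M := by positivity
      exact_mod_cast this
    have key := Sur_add (x := x) (y := x + ((((r + 1) * M : ℕ) : ℤ) : ℝ))
      (z := x + M + ((((r + 1) * M : ℕ) : ℤ) : ℝ)) (by linarith) (by linarith) ih h2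
    obtain ⟨g, hg⟩ : ∃ g : (Fin (r + 1) × Fin b) ⊕ Fin b → Fin (r + 1 + 1) × Fin b,
        g = Sum.elim (fun p => (p.1.castSucc, p.2)) (fun i => (Fin.last (r + 1), i)) := ⟨_, rfl⟩
    have hinj : Function.Injective g := by
      rw [hg]
      rintro (i | i) (j | j) hij <;>
        simp only [Sum.elim_inl, Sum.elim_inr, Prod.mk.injEq, Fin.castSucc_inj] at hij
      · rw [Prod.ext hij.1 hij.2]
      · exact absurd hij.1 (Fin.castSucc_lt_last _).ne
      · exact absurd hij.1.symm (Fin.castSucc_lt_last _).ne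
      · rw [hij.2]
    have hbij : Function.Bijective g := by
      rw [Fintype.bijective_iff_injective_and_card]
      refine ⟨hinj, ?_⟩
      simp only [Fintype.card_sum, Fintype.card_prod, Fintype.card_fin]
      ring
    refine Sur_equiv (Equiv.ofBijective g hbij) ?_ key
    rintro (i | i)
    · simp [hg]
    · simp [hg]

end Pool.Agent.E8helper80.AX
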