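import Pool.Agent.E8helper80.AX.Multi

/-! Blocks with different multiplicities: the plane. -/

set_option autoImplicit false

namespace Pool.Agent.E8helper80.AX

open Finset Pool.Agent.TH176.Nag Pool.Agent.TH603.Sur Pool.Agent.TH603.Cut Pool.Agent.TH641.NW
  Pool.Agent.TH641.UM Pool.Agent.H932R3 Pool.Agent.TH978.S13 Pool.Agent.TH469.SX

theorem plane_multi_emp {M r k h : ℕ} (hM : 1 ≤ M) (hk : (r + 1) * M + k = 9) {ι : Type} [Finite ι]
    {w0 : ι → ℕ} (hE0 : Emp w0 (Sc (KN M - M) (KN M - M + M) h ∪ {((0, (h : ℤ)) : ℤ × ℤ)}))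
    (m : Fin r → ℕ) (hE : ∀ j, Emp (fun _ : Fin (M + 2) => m j) (Sc (KN M - M) (KN M - M + M) h)) :
    Emp (Sum.elim (Sum.elim w0 (fun p : Fin r × Fin (M + 2) => m p.1)) (fun _ : Fin k => h))
      (TZ (3 * h)) := by
  obtain ⟨hS, hK1, hK2⟩ := slpN hM
  obtain ⟨x, hx⟩ : ∃ x : ℝ, x = KN M - M := ⟨_, rfl⟩
  rw [← hx] at hE hE0
  have hirr : Irrational x := by
    rw [hx]
    exact hS.irr.sub_natCast M
  have hx0 : 0 < x := by rw [hx]; linarith
  have hx3 : x < 3 := by rw [hx]; linarith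
  have ha : 1 ≤ (r + 1) * M := Nat.mul_pos (Nat.succ_pos r) hM
  have h9 : x + (((r + 1) * M + k : ℕ) : ℝ) = x + 9 := by rw [hk]; push_cast; ring
  have h3 := Emp_units ha hirr (Emp_multi hM hirr hE0 r m hE) k
  rw [h9] at h3
  exact Emp_plane9 hirr hx0 hx3 h3

theorem plane_multi_sur {M r k h : ℕ} (hM : 1 ≤ M) (hk : (r + 1) * M + k = 9)
    (m : Fin (r + 1) → ℕ) (hE : ∀ j, Sur (fun _ : Fin (M + 2) => m j) (Sc (KN M - M) (KN M - M + M) h)) :
    Sur (Sum.elim (fun p : Fin (r + 1) × Fin (M + 2) => m p.1) (fun _ : Fin k => h)) (TZ (3 * h)) := by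
  obtain ⟨hS, hK1, hK2⟩ := slpN hM
  obtain ⟨x, hx⟩ : ∃ x : ℝ, x = KN M - M := ⟨_, rfl⟩
  rw [← hx] at hE
  have hirr : Irrational x := by
    rw [hx]
    exact hS.irr.sub_natCast M
  have hx0 : 0 < x := by rw [hx]; linarith
  have hx3 : x < 3 := by rw [hx]; linarith
  have ha : 1 ≤ (r + 1) * M := Nat.mul_pos (Nat.succ_pos r) hM
  have h9 : x + (((r + 1) * M + k : ℕ) : ℝ) = x + 9 := by rw [hk]; push_cast; ring
  have h3 := Sur_units ha hirr (Sur_multi hM r m hE) k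
  rw [h9] at h3
  exact Sur_plane9 hirr hx0 hx3 h3

/-- the multiplicities: `h` at `k` points, then `m j` at the `M + 2` points of the `j`-th group -/
def wts (k M h r : ℕ) (m : Fin r → ℕ) : Fin (k + r * (M + 2)) → ℕ :=
  Fin.append (fun _ : Fin k => h) (fun i : Fin (r * (M + 2)) => m i.divNat)

/-- the index sets -/
def ix (k M r : ℕ) : Fin k ⊕ (Fin r × Fin (M + 2)) ≃ Fin (k + r * (M + 2)) :=
  (Equiv.sumCongr (Equiv.refl _) finProdFinEquiv).trans finSumFinEquiv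

theorem wts_ix (k M h r : ℕ) (m : Fin r → ℕ) (i : Fin k ⊕ (Fin r × Fin (M + 2))) :
    Sum.elim (fun _ : Fin k => h) (fun p : Fin r × Fin (M + 2) => m p.1) i = wts k M h r m (ix k M r i) := by
  rcases i with i | p
  · simp [wts, ix, Fin.append_left]
  · have h1 : (finProdFinEquiv p).divNat = p.1 := by
      show (finProdFinEquiv.symm (finProdFinEquiv p)).1 = p.1
      rw [Equiv.symm_apply_apply]
    simp [wts, ix, Fin.append_right, h1]

/-- emptiness -/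
theorem emp_multi {M r k h : ℕ} {m : Fin r → ℕ} (hM : 1 ≤ M) (hM9 : M ≤ 9) (hk : k + r * M = 9)
    (hG : ∀ j, M * Nat.choose (h + 1) 2 ≤ (M + 2) * Nat.choose (m j + 1) 2)
    (hG' : ∃ j, M * h ^ 2 < (M + 2) * m j ^ 2 ∨
      (M ≤ m j ∧ (M : ℤ) * ((h : ℤ) - (M + 1)) ^ 2 < (M + 2) * ((m j : ℤ) - M) ^ 2)) :
    Emp (wts k M h r m) (TZ (3 * h)) := by
  obtain ⟨j0, hj0⟩ := hG'
  obtain ⟨r, rfl⟩ : ∃ r', r = r' + 1 := ⟨r - 1, by have := j0.2; omega⟩
  have h1 := plane_multi_emp (k := k) hM (by rw [add_comm]; exact hk) (blkA hM hM9 hj0)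
    (fun j => m (j0.succAbove j)) (fun j => blkB hM (hG _))
  refine Emp_equiv (ix k M (r + 1)) (wts_ix k M h (r + 1) m) ?_
  refine Emp_emb (Sum.elim (Sum.elim (fun i => Sum.inr (j0, i)) (fun p => Sum.inr (j0.succAbove p.1, p.2)))
    Sum.inl) ?_ ?_ h1
  · rintro ((i | i) | i) ((j | j) | j) hij <;>
      simp only [Sum.elim_inl, Sum.elim_inr, Sum.inl.injEq, Sum.inr.injEq,
        Prod.mk.injEq, reduceCtorEq, Fin.succAbove_right_inj] at hij
    · rw [hij.2]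
    · exact absurd hij.1.symm (Fin.succAbove_ne _ _)
    · exact absurd hij.1 (Fin.succAbove_ne _ _)
    · rw [Prod.ext hij.1 hij.2]
    · rw [hij]
  · rintro ((i | i) | i) <;> simp

/-- independence -/
theorem sur_multi {M r k h : ℕ} {m : Fin r → ℕ} (hM : 1 ≤ M) (hr : 1 ≤ r) (hk : k + r * M = 9)
    (hG : ∀ j, (M + 2) * Nat.choose (m j + 1) 2 ≤ M * Nat.choose (h + 1) 2) :
    Sur (wts k M h r m) (TZ (3 * h)) := by
  obtain ⟨r, rfl⟩ : ∃ r', r = r' + 1 := ⟨r - 1, by omega⟩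
  have h1 := plane_multi_sur (k := k) hM (by rw [add_comm]; exact hk) m (fun j => blkC hM (hG j))
  refine Sur_equiv ((Equiv.sumComm _ _).trans (ix k M (r + 1))) ?_ h1
  intro i
  rw [Equiv.trans_apply, ← wts_ix]
  rcases i with i | i <;> simp

/-- emptiness with simple points -/
theorem emp_multi_simple {M r k h s : ℕ} {m : Fin r → ℕ} (hM : 1 ≤ M) (hr : 1 ≤ r) (hs : 1 ≤ s)
    (hk : k + r * M = 9)
    (hG : ∀ j, M * Nat.choose (h + 1) 2 ≤ (M + 2) * Nat.choose (m j + 1) 2) :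
    Emp (Sum.elim (wts k M h r m) (fun _ : Fin s => 1)) (TZ (3 * h)) := by
  obtain ⟨r, rfl⟩ : ∃ r', r = r' + 1 := ⟨r - 1, by omega⟩
  have h1 := plane_multi_emp (k := k) hM (by rw [add_comm]; exact hk) (block_simple (blkB hM (hG 0)))
    (fun j => m j.succ) (fun j => blkB hM (hG _))
  refine Emp_equiv (w := Sum.elim (Sum.elim (fun _ : Fin k => h) (fun p : Fin (r + 1) × Fin (M + 2) => m p.1))
    (fun _ : Fin s => 1)) (Equiv.sumCongr (ix k M (r + 1)) (Equiv.refl (Fin s))) ?_ ?_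
  · rintro (i | i)
    · simp only [Sum.elim_inl, Equiv.sumCongr_apply, Sum.map_inl]
      exact wts_ix k M h (r + 1) m i
    · simp
  refine Emp_emb (Sum.elim (Sum.elim (Sum.elim (fun i => Sum.inl (Sum.inr (0, i)))
    (fun _ => Sum.inr ⟨0, hs⟩)) (fun p => Sum.inl (Sum.inr (p.1.succ, p.2)))) (fun i => Sum.inl (Sum.inl i))) ?_ ?_ h1
  · rintro (((i | i) | i) | i) (((j | j) | j) | j) hij <;>
      simp only [Sum.elim_inl, Sum.elim_inr, Sum.inl.injEq, Sum.inr.injEq,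
        Prod.mk.injEq, reduceCtorEq, Fin.succ_inj] at hij
    · rw [hij.2]
    · exact absurd hij.1.symm (Fin.succ_ne_zero _)
    · rw [Subsingleton.elim i j]
    · exact absurd hij.1 (Fin.succ_ne_zero _)
    · rw [Prod.ext hij.1 hij.2]
    · rw [hij]
  · rintro (((i | i) | i) | i) <;> simp

/-- the expected dimension -/
theorem expDim_multi {M r k : ℕ} (hM : 1 ≤ M) (hr : 1 ≤ r) (hk : k + r * M = 9) (h : ℕ) (m : Fin r → ℕ) :
    ∃ F : MvPolynomial (Fin (k + r * (M + 2)) × Fin 2) ℚ, F ≠ 0 ∧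
      ∀ {L : Type} [Field L] [CharZero L] (P : Fin (k + r * (M + 2)) → Fin 2 → L),
        MvPolynomial.aeval (fun ij : Fin (k + r * (M + 2)) × Fin 2 => P ij.1 ij.2) F ≠ 0 →
        ∀ d : ℕ, ((d ≤ 3 * h ∧ (∀ j, M * Nat.choose (h + 1) 2 ≤ (M + 2) * Nat.choose (m j + 1) 2) ∧
            ∃ j, M * h ^ 2 < (M + 2) * m j ^ 2 ∨
              (M ≤ m j ∧ (M : ℤ) * ((h : ℤ) - (M + 1)) ^ 2 < (M + 2) * ((m j : ℤ) - M) ^ 2)) ∨
          (3 * h ≤ d ∧ ∀ j, (M + 2) * Nat.choose (m j + 1) 2 ≤ M * Nat.choose (h + 1) 2)) →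
        ExpDim L (wts k M h r m) P d := by
  have hM9 : M ≤ 9 := by nlinarith
  refine expDim_two (w := wts k M h r m)
    (A := fun d => d ≤ 3 * h ∧ (∀ j, M * Nat.choose (h + 1) 2 ≤ (M + 2) * Nat.choose (m j + 1) 2) ∧
            ∃ j, M * h ^ 2 < (M + 2) * m j ^ 2 ∨
              (M ≤ m j ∧ (M : ℤ) * ((h : ℤ) - (M + 1)) ^ 2 < (M + 2) * ((m j : ℤ) - M) ^ 2))
    (B := fun d => 3 * h ≤ d ∧ ∀ j, (M + 2) * Nat.choose (m j + 1) 2 ≤ M * Nat.choose (h + 1) 2)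
    (3 * h) (fun d hd => hd.1) (fun d hd => ?_) (fun d hd => ?_)
  · exact (emp_multi hM hM9 hk hd.2.1 hd.2.2).mono (TZ_mono' hd.1)
  · exact (sur_multi hM hr hk hd.2).mono (TZ_mono' hd.1)

/-- with simple points -/
theorem expDim_multi_simple {M r k s : ℕ} (hM : 1 ≤ M) (hr : 1 ≤ r) (hs : 1 ≤ s) (hk : k + r * M = 9)
    (h : ℕ) (m : Fin r → ℕ)
    (hG : (∀ j, M * Nat.choose (h + 1) 2 ≤ (M + 2) * Nat.choose (m j + 1) 2) ∨
      ∀ j, (M + 2) * Nat.choose (m j + 1) 2 ≤ M * Nat.choose (h + 1) 2) :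
    ∃ F : MvPolynomial (Fin (k + r * (M + 2) + s) × Fin 2) ℚ, F ≠ 0 ∧
      ∀ {L : Type} [Field L] [CharZero L] (P : Fin (k + r * (M + 2) + s) → Fin 2 → L),
        MvPolynomial.aeval (fun ij : Fin (k + r * (M + 2) + s) × Fin 2 => P ij.1 ij.2) F ≠ 0 →
        ExpDim L (Fin.append (wts k M h r m) (fun _ : Fin s => 1)) P (3 * h) := by
  have key : Emp (Sum.elim (wts k M h r m) (fun _ : Fin s => 1)) (TZ (3 * h)) ∨
      Sur (Sum.elim (wts k M h r m) (fun _ : Fin s => 1)) (TZ (3 * h)) := by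
    rcases hG with hG | hG
    · exact Or.inl (emp_multi_simple hM hr hs hk hG)
    · exact dich_add s (Or.inr (sur_multi hM hr hk hG))
  have hw : ∀ i : Fin (k + r * (M + 2)) ⊕ Fin s,
      Sum.elim (wts k M h r m) (fun _ : Fin s => 1) i =
      Fin.append (wts k M h r m) (fun _ : Fin s => 1) (finSumFinEquiv i) := by
    rintro (i | i)
    · simp [Fin.append_left]
    · simp [Fin.append_right]
  obtain ⟨F, hF, hF'⟩ := Pool.Agent.TH864.SX.expDim_of_or'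
    (w := Fin.append (wts k M h r m) (fun _ : Fin s => 1))
    (G := fun d => d = 3 * h) (fun d hd => by
      rw [hd]
      rcases key with h1 | h1
      · exact Or.inl (Emp_equiv _ hw h1)
      · exact Or.inr (Sur_equiv _ hw h1))
  exact ⟨F, hF, fun P hP => hF' P hP (3 * h) rfl⟩

end Pool.Agent.E8helper80.AX
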