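import Pool.Agent.E8helper80.AX.MainH

/-! One simple point more. -/

set_option autoImplicit false

namespace Pool.Agent.E8helper80.AX

open Finset Pool.Agent.TH176.Nag Pool.Agent.TH603.Sur Pool.Agent.TH603.Cut Pool.Agent.TH641.NW
  Pool.Agent.TH641.UM Pool.Agent.H932R3 Pool.Agent.TH978.S13

/-- blocks after a first block with arbitrary weights -/
theorem Emp_blocks' {ι : Type} [Finite ι] {w0 : ι → ℕ} {b m h M : ℕ} {x : ℝ} (hM : 1 ≤ M) (hx : Irrational x)
    (hE0 : Emp w0 (Sc x (x + M) h ∪ {((0, (h : ℤ)) : ℤ × ℤ)}))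
    (hE : Emp (fun _ : Fin b => m) (Sc x (x + M) h)) (r : ℕ) :
    Emp (Sum.elim w0 (fun _ : Fin (r * b) => m))
      (Sc x (x + ((r + 1) * M : ℕ)) h ∪ {((0, (h : ℤ)) : ℤ × ℤ)}) := by
  have hMR : (1 : ℝ) ≤ M := by exact_mod_cast hM
  induction r with
  | zero =>
    have e1 : x + (((0 + 1) * M : ℕ) : ℝ) = x + M := by push_cast; ring
    rw [e1]
    exact Emp_emb Sum.inl Sum.inl_injective (fun i => by simp) hE0
  | succ r ih =>
    have h2 : Emp (fun _ : Fin b => m) (Sc (x + (((r + 1) * M : ℕ) : ℤ)) (x + M + (((r + 1) * M : ℕ) : ℤ)) h) :=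
      Emp_shift _ hE
    have e1 : x + (((r + 1 + 1) * M : ℕ) : ℝ) = x + M + ((((r + 1) * M : ℕ) : ℤ) : ℝ) := by
      push_cast; ring
    have e2 : x + (((r + 1) * M : ℕ) : ℝ) = x + ((((r + 1) * M : ℕ) : ℤ) : ℝ) := by
      push_cast; ring
    rw [e1]
    rw [e2] at ih
    have h0 : (0 : ℝ) < ((((r + 1) * M : ℕ) : ℤ) : ℝ) := by
      have : 0 < (r + 1) * M := by positivity
      exact_mod_cast this
    have key := Emp_add (x := x) (y := x + ((((r + 1) * M : ℕ) : ℤ) : ℝ))
      (z := x + M + ((((r + 1) * M : ℕ) : ℤ) : ℝ)) (by linarith) (by linarith) (hx.add_intCast _) ih h2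
    refine Emp_equiv ((Equiv.sumAssoc ι (Fin (r * b)) (Fin b)).trans
      (Equiv.sumCongr (Equiv.refl ι) (finSumFinEquiv.trans (finCongr (by ring))))) ?_ key
    rintro ((i | i) | i) <;> rfl

/-- a simple point for the apex -/
theorem block_simple {M h m : ℕ} (hE : Emp (fun _ : Fin (M + 2) => m) (Sc (KN M - M) (KN M - M + M) h)) :
    Emp (Sum.elim (fun _ : Fin (M + 2) => m) (fun _ : Fin 1 => 1))
      (Sc (KN M - M) (KN M - M + M) h ∪ {((0, (h : ℤ)) : ℤ × ℤ)}) := by
  have h0 : Emp (Sum.elim (fun _ : Fin (M + 2) => m) (fun _ : Fin 0 => 1)) (Sc (KN M - M) (KN M - M + M) h) :=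
    Emp_emb Sum.inl Sum.inl_injective (fun i => by simp) hE
  have h1 := Emp_insert ((0, (h : ℤ)) : ℤ × ℤ) h0
  refine Emp.mono h1 ?_
  rintro p (hp | hp)
  · exact Set.mem_insert_of_mem _ hp
  · rw [Set.mem_singleton_iff] at hp
    rw [hp]
    exact Set.mem_insert _ _

/-- the plane with one simple point -/
theorem plane_simple {M r k h m : ℕ} (hM : 1 ≤ M) (hk : (r + 1) * M + k = 9)
    (hE : Emp (fun _ : Fin (M + 2) => m) (Sc (KN M - M) (KN M - M + M) h)) :
    Emp (Sum.elim (Sum.elim (Sum.elim (fun _ : Fin (M + 2) => m) (fun _ : Fin 1 => 1))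
      (fun _ : Fin (r * (M + 2)) => m)) (fun _ : Fin k => h)) (TZ (3 * h)) := by
  obtain ⟨hS, hK1, hK2⟩ := slpN hM
  have h2 := block_simple hE
  obtain ⟨x, hx⟩ : ∃ x : ℝ, x = KN M - M := ⟨_, rfl⟩
  rw [← hx] at hE h2
  have hirr : Irrational x := by
    rw [hx]
    exact hS.irr.sub_natCast M
  have hx0 : 0 < x := by rw [hx]; linarith
  have hx3 : x < 3 := by rw [hx]; linarith
  have ha : 1 ≤ (r + 1) * M := Nat.mul_pos (Nat.succ_pos r) hM
  have h9 : x + (((r + 1) * M + k : ℕ) : ℝ) = x + 9 := by rw [hk]; push_cast; ring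
  have h3 := Emp_units ha hirr (Emp_blocks' hM hirr h2 hE r) k
  rw [h9] at h3
  exact Emp_plane9 hirr hx0 hx3 h3

/-- reindexing to `k` points, `(r + 1) (M + 2)` points and `s` simple points -/
theorem plane_simple' {M r k h m s : ℕ} (hM : 1 ≤ M) (hs : 1 ≤ s) (hk : (r + 1) * M + k = 9)
    (hE : Emp (fun _ : Fin (M + 2) => m) (Sc (KN M - M) (KN M - M + M) h)) :
    Emp (Sum.elim (fun i : Fin (k + (r + 1) * (M + 2)) => if (i : ℕ) < k then h else m)
      (fun _ : Fin s => 1)) (TZ (3 * h)) := by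
  have h1 := plane_simple hM hk hE
  -- first reorder
  let g : ((Fin (M + 2) ⊕ Fin 1) ⊕ Fin (r * (M + 2))) ⊕ Fin k → Fin (k + (r + 1) * (M + 2)) ⊕ Fin s :=
    Sum.elim (Sum.elim (Sum.elim
      (fun i => Sum.inl ⟨k + i, by have := i.2; nlinarith [Nat.zero_le (r * (M + 2))]⟩)
      (fun _ => Sum.inr ⟨0, hs⟩))
      (fun i => Sum.inl ⟨k + ((M + 2) + i), by have := i.2; nlinarith⟩))
      (fun i => Sum.inl ⟨i, by have := i.2; omega⟩)
  refine Emp_emb g ?_ ?_ h1
  · rintro (((i | i) | i) | i) (((j | j) | j) | j) hij <;>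
      simp only [g, Sum.elim_inl, Sum.elim_inr, Sum.inl.injEq, Fin.mk.injEq, reduceCtorEq] at hij
    · congr 3; exact Fin.ext (by omega)
    · exact absurd hij (by have := i.2; omega)
    · exact absurd hij (by have := j.2; omega)
    · congr 3; exact Subsingleton.elim _ _
    · exact absurd hij (by have := j.2; omega)
    · congr 2; exact Fin.ext (by omega)
    · exact absurd hij (by have := j.2; omega)
    · exact absurd hij (by have := i.2; omega)
    · exact absurd hij (by have := i.2; omega)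
    · congr 1; exact Fin.ext (by omega)
  · rintro (((i | i) | i) | i)
    · simp [g]
    · simp [g]
    · simp [g]
    · simp [g]

/-- adding simple points -/
theorem dich_add {ι : Type} [Fintype ι] {w : ι → ℕ} {d : ℕ} (s : ℕ) (h : Emp w (TZ d) ∨ Sur w (TZ d)) :
    Emp (Sum.elim w (fun _ : Fin s => 1)) (TZ d) ∨ Sur (Sum.elim w (fun _ : Fin s => 1)) (TZ d) := by
  rcases h with h | h
  · exact Or.inl (Emp_emb Sum.inl Sum.inl_injective (fun i => by simp) h)
  · rcases le_or_gt ((d + 2).choose 2) (cond w + s) with h1 | h1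
    · exact Or.inl (Emp_ones h h1)
    · right
      obtain ⟨p, hp⟩ := Nat.exists_eq_add_of_lt h1
      have h2 := Emp_ones (p := s + (p + 1)) h (by omega)
      refine Sur_of_ones (p := p + 1) (Emp_equiv ((Equiv.sumCongr (Equiv.refl ι) finSumFinEquiv.symm).trans
        (Equiv.sumAssoc ι (Fin s) (Fin (p + 1))).symm) ?_ h2) ?_
      · rintro (i | i)
        · simp
        · simp only [Sum.elim_inr, Equiv.trans_apply, Equiv.sumCongr_apply, Sum.map_inr]
          rcases finSumFinEquiv.symm i with j | j <;> simp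
      · have h3 : cond (Sum.elim w (fun _ : Fin s => 1)) = cond w + s := by
          simp [Pool.Agent.TH603.Sur.cond, Fintype.sum_sum_type]
        omega

/-- all the systems with simple points -/
theorem dich_simple {M r k h m s : ℕ} (hM : 1 ≤ M) (hr : 1 ≤ r) (hs : 1 ≤ s) (hk : k + r * M = 9) :
    Emp (Fin.append (fun i : Fin (k + r * (M + 2)) => if (i : ℕ) < k then h else m)
      (fun _ : Fin s => 1)) (TZ (3 * h)) ∨
    Sur (Fin.append (fun i : Fin (k + r * (M + 2)) => if (i : ℕ) < k then h else m)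
      (fun _ : Fin s => 1)) (TZ (3 * h)) := by
  have key : Emp (Sum.elim (fun i : Fin (k + r * (M + 2)) => if (i : ℕ) < k then h else m)
      (fun _ : Fin s => 1)) (TZ (3 * h)) ∨
    Sur (Sum.elim (fun i : Fin (k + r * (M + 2)) => if (i : ℕ) < k then h else m)
      (fun _ : Fin s => 1)) (TZ (3 * h)) := by
    rcases lt_or_ge (M * (h * h)) ((M + 2) * (m * m)) with h0 | h0
    · exact dich_add s (dich_anti2 hM hr hk (Or.inl h0))
    rcases le_or_gt ((M + 2) * ((2 * m + 1) * (2 * m + 1))) (M * ((2 * h + 1) * (2 * h + 1))) with h1 | h1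
    · exact dich_add s (dich_anti2 hM hr hk (Or.inr h1))
    have hd0 := delta_nonneg hM h0
    have hd1 : KG M * h - (KG M + 1) * m < 1 / 2 := by
      have h2 := lt_of_sq (a := 2 * h + 1) (b := 2 * m + 1) hM (by positivity) (by positivity)
        (by exact_mod_cast h1)
      linarith
    obtain ⟨r, rfl⟩ : ∃ r', r = r' + 1 := ⟨r - 1, by omega⟩
    exact Or.inl (plane_simple' hM hs (by rw [add_comm]; exact hk) (blockEmp.free M h m hM hd0 hd1))
  have hw : ∀ i : Fin (k + r * (M + 2)) ⊕ Fin s,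
      Sum.elim (fun i : Fin (k + r * (M + 2)) => if (i : ℕ) < k then h else m) (fun _ : Fin s => 1) i =
      Fin.append (fun i : Fin (k + r * (M + 2)) => if (i : ℕ) < k then h else m)
        (fun _ : Fin s => 1) (finSumFinEquiv i) := by
    rintro (i | i)
    · simp [Fin.append_left]
    · simp [Fin.append_right]
  rcases key with h1 | h1
  · exact Or.inl (Emp_equiv _ hw h1)
  · exact Or.inr (Sur_equiv _ hw h1)

end Pool.Agent.E8helper80.AX
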